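import Pool.Agent.Helper76.SGC.Goals

/-!
# Project SG (MP_a41896_nt), part 1: packet PRN (an inequality between real numbers)
-/

set_option autoImplicit false

open MvPolynomial

namespace Pool.Agent.Helper78.SGC1

open WeierstrassCurve Height
open Pool.Agent.Helper29.BL Pool.Agent.Helper92.Ru Pool.Agent.Helper42.SG
open Pool.Agent.Helper77.SGC (Arr sh N0 Forb HOUS MON)
open Pool.Agent.Helper76.SGC

noncomputable section

/-- a product over `range (2 n)` in pairs -/
theorem prod_range_pairs {M : Type} [CommMonoid M] (f : ℕ → M) (n : ℕ) :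
    ∏ h ∈ Finset.range (2 * n), f h = ∏ j ∈ Finset.range n, (f (2 * j) * f (2 * j + 1)) := by
  induction n with
  | zero => simp
  | succ n ih =>
    rw [Finset.prod_range_succ, ← ih]
    have : 2 * (n + 1) = 2 * n + 1 + 1 := by ring
    rw [this, Finset.prod_range_succ, Finset.prod_range_succ, mul_assoc]

/-- a product over `Fin (2 n)` in pairs -/
theorem prod_fin_pairs {M : Type} [CommMonoid M] (n : ℕ) (f : Fin (2 * n) → M) :
    ∏ h : Fin (2 * n), f h = ∏ j : Fin n, (f (hz j) * f (ho j)) := by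
  classical
  let F : ℕ → M := fun h => if hh : h < 2 * n then f ⟨h, hh⟩ else 1
  have e1 : ∀ h : Fin (2 * n), f h = F h.val := by
    intro h
    show f h = if hh : h.val < 2 * n then f ⟨h.val, hh⟩ else 1
    rw [dif_pos h.isLt]
  have e2 : ∀ j : Fin n, f (hz j) * f (ho j) = F (2 * j.val) * F (2 * j.val + 1) := by
    intro j
    rw [e1 (hz j), e1 (ho j)]
    rfl
  rw [Finset.prod_congr rfl (fun h _ => e1 h), Finset.prod_congr rfl (fun j _ => e2 j),
    Fin.prod_univ_eq_prod_range F (2 * n), prod_range_pairs,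
    ← Fin.prod_univ_eq_prod_range (fun j => F (2 * j) * F (2 * j + 1)) n]

/-- one factor -/
theorem prn_one (a a0 b : ℝ) (n i : ℕ) (μ : Fin 2) (hb : 1 ≤ b) (ha : 1 ≤ a) (ha0 : 1 ≤ a0)
    (hn : 1 ≤ n) :
    ((b * a ^ 2 * (b * a0 ^ 2)) ^ μ.val * a ^ i) * a0 ^ (2 * n - 2 * μ.val) ≤
      b ^ 2 * (a ^ (i + 2 * μ.val) * a0 ^ (2 * n)) := by
  have hμ : μ.val ≤ 1 := by have := μ.isLt; omega
  have e1 : ((b * a ^ 2 * (b * a0 ^ 2)) ^ μ.val * a ^ i) * a0 ^ (2 * n - 2 * μ.val) =
      b ^ (2 * μ.val) * (a ^ (i + 2 * μ.val) * a0 ^ (2 * n)) := by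
    have e2 : a0 ^ (2 * n) = a0 ^ (2 * μ.val) * a0 ^ (2 * n - 2 * μ.val) := by
      rw [← pow_add]
      congr 1
      omega
    rw [e2]
    have e3 : (b * a ^ 2 * (b * a0 ^ 2)) ^ μ.val =
        b ^ (2 * μ.val) * a ^ (2 * μ.val) * a0 ^ (2 * μ.val) := by
      rw [pow_mul, pow_mul, pow_mul, ← mul_pow, ← mul_pow]
      congr 1
      ring
    rw [e3, pow_add]
    ring
  rw [e1]
  apply mul_le_mul_of_nonneg_right
  · exact pow_le_pow_right₀ hb (by omega)
  · positivity

/-- **PRN** -/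
theorem prn (h1 : MON) : PRN := by
  intro n k0 e a b μ i hn ha hb hN hF
  have hpos : ∀ h < 2 * n + 2, 0 < a h := fun h hh => lt_of_lt_of_le one_pos (ha h hh)
  have p0 : 1 ≤ a (2 * n) := ha _ (by omega)
  have p1 : 1 ≤ a (2 * n + 1) := ha _ (by omega)
  unfold keyB
  rw [← mul_assoc, ← mul_assoc]
  apply mul_le_mul_of_nonneg_right _ (by positivity)
  rw [← Finset.prod_mul_distrib]
  have eb : b ^ (4 * n) = ∏ j : Fin n, b ^ 4 := by
    rw [Finset.prod_const, Finset.card_univ, Fintype.card_fin, ← pow_mul]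
  rw [eb, ← Fin.prod_univ_eq_prod_range (fun j =>
    (a (2 * j) * a (2 * j + 1)) ^ (2 * 4 ^ e j * n + 4 ^ e j) *
    (a (2 * n) * a (2 * n + 1)) ^ (2 * n) /
      (min (a (2 * j)) (a (2 * j + 1))) ^ (k0 * 4 ^ e j)) n, ← Finset.prod_mul_distrib]
  rw [prod_fin_pairs]
  apply Finset.prod_le_prod
  · intro j _
    have q0 := ha (hz j).val (by have := (hz j).isLt; omega)
    have q1 := ha (ho j).val (by have := (ho j).isLt; omega)
    have r0 := ha (2 * n + (hz j).val % 2) (by omega)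
    have r1 := ha (2 * n + (ho j).val % 2) (by omega)
    positivity
  · intro j _
    have q0 := ha (hz j).val (by have := (hz j).isLt; omega)
    have q1 := ha (ho j).val (by have := (ho j).isLt; omega)
    have m0 : (hz j).val % 2 = 0 := by show (2 * j.val) % 2 = 0; omega
    have m1 : (ho j).val % 2 = 1 := by show (2 * j.val + 1) % 2 = 1; omega
    have d0 : (hz j).val / 2 = j.val := by show (2 * j.val) / 2 = j.val; omega
    have d1 : (ho j).val / 2 = j.val := by show (2 * j.val + 1) / 2 = j.val; omega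
    have n0 := hN (hz j)
    have n1 := hN (ho j)
    rw [d0] at n0
    rw [d1] at n1
    rw [m0, m1, Nat.add_zero]
    have k1 := prn_one (a (hz j).val) (a (2 * n)) b n (i (hz j)) (μ (hz j)) hb q0 p0 hn
    have k2 := prn_one (a (ho j).val) (a (2 * n + 1)) b n (i (ho j)) (μ (ho j)) hb q1 p1 hn
    have hno : i (hz j) + 2 * (μ (hz j)).val + (i (ho j) + 2 * (μ (ho j)).val) +
        k0 * 4 ^ e j.val ≤ 2 * N0 n (e j.val) := by
      by_contra hcon
      exact hF j ⟨n0, n1, by omega⟩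
    have k3 := h1 (a (hz j).val) (a (ho j).val) (i (hz j) + 2 * (μ (hz j)).val)
      (i (ho j) + 2 * (μ (ho j)).val) (k0 * 4 ^ e j.val) (N0 n (e j.val)) q0 q1 n0 n1 hno
    refine le_trans (mul_le_mul k1 k2 (by positivity) (by positivity)) ?_
    have e5 : b ^ 2 * (a (hz j).val ^ (i (hz j) + 2 * (μ (hz j)).val) * a (2 * n) ^ (2 * n)) *
        (b ^ 2 * (a (ho j).val ^ (i (ho j) + 2 * (μ (ho j)).val) * a (2 * n + 1) ^ (2 * n))) =
        b ^ 4 * (a (hz j).val ^ (i (hz j) + 2 * (μ (hz j)).val) *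
          a (ho j).val ^ (i (ho j) + 2 * (μ (ho j)).val)) *
          (a (2 * n) * a (2 * n + 1)) ^ (2 * n) := by
      rw [mul_pow (a (2 * n)) (a (2 * n + 1))]
      ring
    rw [e5]
    have e6 : b ^ 4 * ((a (2 * j.val) * a (2 * j.val + 1)) ^ (2 * 4 ^ e j.val * n + 4 ^ e j.val) *
        (a (2 * n) * a (2 * n + 1)) ^ (2 * n) /
        (min (a (2 * j.val)) (a (2 * j.val + 1))) ^ (k0 * 4 ^ e j.val)) =
        b ^ 4 * ((a (hz j).val * a (ho j).val) ^ (N0 n (e j.val)) /
          (min (a (hz j).val) (a (ho j).val)) ^ (k0 * 4 ^ e j.val)) *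
          (a (2 * n) * a (2 * n + 1)) ^ (2 * n) := by
      have f0 : (hz j).val = 2 * j.val := rfl
      have f1 : (ho j).val = 2 * j.val + 1 := rfl
      rw [f0, f1]
      unfold N0
      ring
    rw [e6]
    apply mul_le_mul_of_nonneg_right _ (by positivity)
    apply mul_le_mul_of_nonneg_left k3 (by positivity)

end

end Pool.Agent.Helper78.SGC1
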