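import Pool.Agent.Helper76.SGC.Goals

/-!
# Project SG (MP_a41896_nt), part 1: packet EXPA (expansion of the auxiliary function)
-/

set_option autoImplicit false

open MvPolynomial

namespace Pool.Agent.Helper78.SGC1

open WeierstrassCurve Height
open Pool.Agent.Helper29.BL Pool.Agent.Helper92.Ru Pool.Agent.Helper42.SG
open Pool.Agent.Helper77.SGC (Arr sh N0 Forb HOUS MON)
open Pool.Agent.Helper76.SGC

noncomputable section

/-- a sum over a range, shifted -/
theorem sum_shift {M : Type} [AddCommMonoid M] (F : ℕ → M) (l d N : ℕ) (hN : l + d ≤ N)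
    (h0 : ∀ i < l, F i = 0) (h1 : ∀ i, d < i → F (l + i) = 0) :
    ∑ i ∈ Finset.range (N + 1), F i = ∑ i ∈ Finset.range (d + 1), F (l + i) := by
  have e1 : ∑ i ∈ Finset.range (d + 1), F (l + i) =
      ∑ i ∈ (Finset.range (d + 1)).map (addLeftEmbedding l), F i := by
    rw [Finset.sum_map]
    rfl
  rw [e1]
  symm
  apply Finset.sum_subset
  · intro i hi
    rw [Finset.mem_map] at hi
    obtain ⟨k, hk, rfl⟩ := hi
    rw [Finset.mem_range] at hk ⊢
    show l + k < N + 1
    omega
  · intro i _ hi
    rcases Nat.lt_or_ge i l with h | h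
    · exact h0 i h
    · obtain ⟨k, rfl⟩ := Nat.exists_eq_add_of_le h
      apply h1
      by_contra hk
      apply hi
      rw [Finset.mem_map]
      refine ⟨k, ?_, rfl⟩
      rw [Finset.mem_range]
      omega

/-- the expansion of one factor -/
theorem one_factor {K : Type} [Field K] {W : Affine K} {B : AbsoluteValue K ℝ → ℝ} {D e n : ℕ}
    {G : Bool → ℕ → Fin 2 → ℕ → ℕ → K} (hG : Arr W B D e n G) (lb : Bool) (l m : ℕ)
    (hl : l < 4 ^ e) (hm : m ≤ n) (A : Type) [CommRing A] [Algebra K A] (x c η : A)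
    (hη : η ^ 2 = Bf (W.map (algebraMap K A)) x * Bf (W.map (algebraMap K A)) c) :
    x ^ l * ((law (W.map (algebraMap K A)) e lb x c η).1 ^ (n - m) *
      (law (W.map (algebraMap K A)) e lb x c η).2 ^ m) =
    ∑ μ : Fin 2, ∑ i ∈ Finset.range (N0 n e + 1), (η ^ μ.val * x ^ i) *
      ∑ g ∈ Finset.range (2 * n + 1), algebraMap K A (sh G lb μ i g l m) * c ^ g := by
  rw [hG.law lb m hm A x c η hη, Finset.mul_sum]
  apply Finset.sum_congr rfl
  intro μ _
  rw [sum_shift (fun i => (η ^ μ.val * x ^ i) *
      ∑ g ∈ Finset.range (2 * n + 1), algebraMap K A (sh G lb μ i g l m) * c ^ g) l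
      (2 * 4 ^ e * n) (N0 n e)]
  · rw [Finset.mul_sum]
    apply Finset.sum_congr rfl
    intro i _
    rw [Finset.mul_sum, Finset.mul_sum]
    apply Finset.sum_congr rfl
    intro g _
    have : sh G lb μ (l + i) g l m = G lb m μ i g := by
      unfold sh
      rw [if_pos (Nat.le_add_right l i), Nat.add_sub_cancel_left]
    rw [this, pow_add]
    ring
  · unfold N0
    omega
  · intro i hi
    have : ∀ g, sh G lb μ i g l m = 0 := by
      intro g
      unfold sh
      rw [if_neg (by omega)]
    simp only [this, map_zero, zero_mul, Finset.sum_const_zero, mul_zero]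
  · intro i hi
    have : ∀ g, sh G lb μ (l + i) g l m = 0 := by
      intro g
      unfold sh
      rw [if_pos (Nat.le_add_right l i), Nat.add_sub_cancel_left]
      by_contra hne
      have := (hG.deg lb m hm μ i g hne).1
      omega
    simp only [this, map_zero, zero_mul, Finset.sum_const_zero, mul_zero]

/-- **EXPA** -/
theorem expa : EXPA := by
  intro K _ W B D n e G hG c A _ _ X Ψ hX lam
  have key : ∀ α : Idx n n n e,
      (∏ h : Fin (2 * n), X h.val ^ (α.1 h).1.val *
        ((lawV (mapW A W) n e lam X Ψ h.val).1 ^ (n - (α.1 h).2.val) *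
          (lawV (mapW A W) n e lam X Ψ h.val).2 ^ (α.1 h).2.val)) =
      ∑ μ : Fin (2 * n) → Fin 2,
        ∑ i ∈ Fintype.piFinset (fun h : Fin (2 * n) => Finset.range (N0 n (e (h.val / 2)) + 1)),
          (∏ h : Fin (2 * n), ((Ψ h.val * Ψ (2 * n + h.val % 2)) ^ (μ h).val *
              X h.val ^ (i h))) *
            ∏ h : Fin (2 * n), ∑ g ∈ Finset.range (2 * n + 1),
              algebraMap K A (sh (G h.val) (lam h.val) (μ h) (i h) g (α.1 h).1.val
                (α.1 h).2.val) * X (2 * n + h.val % 2) ^ g := by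
    intro α
    have h1 : ∀ h : Fin (2 * n), X h.val ^ (α.1 h).1.val *
        ((lawV (mapW A W) n e lam X Ψ h.val).1 ^ (n - (α.1 h).2.val) *
          (lawV (mapW A W) n e lam X Ψ h.val).2 ^ (α.1 h).2.val) =
        ∑ μ : Fin 2, ∑ i ∈ Finset.range (N0 n (e (h.val / 2)) + 1),
          ((Ψ h.val * Ψ (2 * n + h.val % 2)) ^ μ.val * X h.val ^ i) *
          ∑ g ∈ Finset.range (2 * n + 1), algebraMap K A
            (sh (G h.val) (lam h.val) μ i g (α.1 h).1.val (α.1 h).2.val) *
              X (2 * n + h.val % 2) ^ g := by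
      intro h
      refine one_factor (hG h.val h.isLt) (lam h.val) (α.1 h).1.val (α.1 h).2.val
        (α.1 h).1.isLt (Nat.lt_succ_iff.mp (α.1 h).2.isLt) A (X h.val) (X (2 * n + h.val % 2))
        (Ψ h.val * Ψ (2 * n + h.val % 2)) ?_
      have a1 := hX h.val (by have := h.isLt; omega)
      have a2 := hX (2 * n + h.val % 2) (by omega)
      have a3 : (2 * n + h.val % 2) % 2 = h.val % 2 := by omega
      rw [a3] at a2
      rw [mul_pow, a1, a2]
      rfl
    rw [Finset.prod_congr rfl (fun h _ => h1 h), Finset.prod_univ_sum, Fintype.piFinset_univ]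
    apply Finset.sum_congr rfl
    intro μ _
    rw [Finset.prod_univ_sum]
    apply Finset.sum_congr rfl
    intro i _
    rw [Finset.prod_mul_distrib]
  unfold Paux
  simp only [key]
  simp only [Finset.mul_sum, Finset.sum_mul]
  rw [Finset.sum_comm]
  apply Finset.sum_congr rfl
  intro μ _
  rw [Finset.sum_comm]
  apply Finset.sum_congr rfl
  intro i _
  unfold Br
  rw [Finset.mul_sum]
  apply Finset.sum_congr rfl
  intro α _
  ring

end

end Pool.Agent.Helper78.SGC1
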