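import Pool.Agent.Helper78.SGC1.EXPA

/-!
# Project SG (MP_a41896_nt), part 1: packet VANA (a forbidden pair kills the bracket)
-/

set_option autoImplicit false

open MvPolynomial

namespace Pool.Agent.Helper78.SGC1

open WeierstrassCurve Height
open Pool.Agent.Helper29.BL Pool.Agent.Helper92.Ru Pool.Agent.Helper42.SG
open Pool.Agent.Helper77.SGC (Arr sh N0 Forb HOUS MON)
open Pool.Agent.Helper76.SGC

noncomputable section

theorem swap3 {α β γ M : Type} [AddCommMonoid M] (s : Finset α) (t : Finset β) (u : Finset γ)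
    (F : α → β → γ → M) :
    ∑ a ∈ s, ∑ b ∈ t, ∑ c ∈ u, F a b c = ∑ b ∈ t, ∑ c ∈ u, ∑ a ∈ s, F a b c := by
  rw [Finset.sum_comm]
  apply Finset.sum_congr rfl
  intro b _
  rw [Finset.sum_comm]

/-- multiplication with a power of the variable -/
theorem sg_sum {K : Type} [Field K] {W : Affine K} {B : AbsoluteValue K ℝ → ℝ} {D e n : ℕ}
    {G : Bool → ℕ → Fin 2 → ℕ → ℕ → K} (hG : Arr W B D e n G) (lb : Bool) (μ : Fin 2)
    (j l m β : ℕ) (hm : m ≤ n) (hβ : β < n) (A : Type) [CommRing A] [Algebra K A] (x : A) :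
    (∑ g ∈ Finset.range (2 * n + 1), algebraMap K A (sh G lb μ j g l m) * x ^ g) * x ^ β =
      ∑ g ∈ Finset.range (3 * n), algebraMap K A (sg G lb μ j g l m β) * x ^ g := by
  have hn : 3 * n = (3 * n - 1) + 1 := by omega
  rw [hn, sum_shift (fun g => algebraMap K A (sg G lb μ j g l m β) * x ^ g) β (2 * n)
    (3 * n - 1) (by omega), Finset.sum_mul]
  · apply Finset.sum_congr rfl
    intro g _
    have : sg G lb μ j (β + g) l m β = sh G lb μ j g l m := by
      unfold Pool.Agent.Helper76.SGC.sg
      rw [if_pos (Nat.le_add_right β g), Nat.add_sub_cancel_left]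
    rw [this, pow_add]
    ring
  · intro i hi
    have : sg G lb μ j i l m β = 0 := by
      unfold Pool.Agent.Helper76.SGC.sg
      rw [if_neg (by omega)]
    rw [this, map_zero, zero_mul]
  · intro i hi
    have : sg G lb μ j (β + i) l m β = 0 := by
      unfold Pool.Agent.Helper76.SGC.sg
      rw [if_pos (Nat.le_add_right β i), Nat.add_sub_cancel_left]
      unfold sh
      by_cases h : l ≤ j
      · rw [if_pos h]
        by_contra hne
        have := (hG.deg lb m hm μ (j - l) i hne).2
        omega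
      · rw [if_neg h]
    rw [this, map_zero, zero_mul]

/-- **VANA** -/
theorem vana (h1 : SPL) : VANA := by
  classical
  intro K _ W B D n k0 e G hG c hc A _ _ lam X μ i j hF
  have hne : hz j ≠ ho j := by
    intro h
    have : (hz j).val = (ho j).val := congrArg Fin.val h
    have e1 : (hz j).val = 2 * j.val := rfl
    have e2 : (ho j).val = 2 * j.val + 1 := rfl
    omega
  let S : ∀ h : Fin (2 * n), Ax n e h → A := fun h x =>
    ∑ g ∈ Finset.range (2 * n + 1),
      algebraMap K A (sh (G h.val) (lam h.val) (μ h) (i h) g x.1.val x.2.val) *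
        X (2 * n + h.val % 2) ^ g
  have hS : ∀ α : ∀ h, Ax n e h, (∏ h : Fin (2 * n), ∑ g ∈ Finset.range (2 * n + 1),
      algebraMap K A (sh (G h.val) (lam h.val) (μ h) (i h) g (α h).1.val (α h).2.val) *
        X (2 * n + h.val % 2) ^ g) = ∏ h : Fin (2 * n), S h (α h) := fun α => rfl
  have hB : Br n e G c lam X μ i = ∑ β : Fin 2 → Fin n, ∑ α : ∀ h, Ax n e h,
      algebraMap K A (c (α, β)) * (∏ h : Fin (2 * n), S h (α h)) *
        (X (2 * n) ^ (β 0).val * X (2 * n + 1) ^ (β 1).val) := by
    unfold Br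
    rw [Fintype.sum_prod_type_right]
    apply Finset.sum_congr rfl
    intro β _
    apply Finset.sum_congr rfl
    intro α _
    rw [hS, Fin.prod_univ_two]
    rfl
  rw [hB]
  have hz0 : ∀ h : Fin (2 * n), Ax n e h := fun h =>
    (⟨0, pow_pos (by norm_num) _⟩, ⟨0, Nat.succ_pos n⟩)
  have hprod : ∀ (α0 : ∀ h, Ax n e h) (x : Ax n e (hz j)) (x' : Ax n e (ho j)),
      ∏ h : Fin (2 * n), S h (Function.update (Function.update α0 (hz j) x) (ho j) x' h) =
        S (hz j) x * S (ho j) x' *
          ∏ h ∈ (Finset.univ.erase (hz j)).erase (ho j), S h (α0 h) := by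
    intro α0 x x'
    rw [← Finset.mul_prod_erase Finset.univ _ (Finset.mem_univ (hz j)),
      ← Finset.mul_prod_erase (Finset.univ.erase (hz j)) _
        (Finset.mem_erase.mpr ⟨hne.symm, Finset.mem_univ (ho j)⟩), ← mul_assoc]
    rw [Function.update_self, Function.update_of_ne hne, Function.update_self]
    congr 1
    apply Finset.prod_congr rfl
    intro h hh
    rw [Finset.mem_erase, Finset.mem_erase] at hh
    rw [Function.update_of_ne hh.1, Function.update_of_ne hh.2.1]
  have hsplit : ∀ β : Fin 2 → Fin n, _ := fun β =>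
    h1 (Fin (2 * n)) (Ax n e) (hz j) (ho j) hne (hz0 (hz j)) (hz0 (ho j)) A
      (fun α => algebraMap K A (c (α, β)) * (∏ h : Fin (2 * n), S h (α h)) *
        (X (2 * n) ^ (β 0).val * X (2 * n + 1) ^ (β 1).val))
  rw [Finset.sum_congr rfl (fun β _ => hsplit β), Finset.sum_comm]
  apply Finset.sum_eq_zero
  intro α0 _
  simp only [hprod]
  have hI : ∑ x : Ax n e (hz j), ∑ x' : Ax n e (ho j), ∑ β : Fin 2 → Fin n,
      algebraMap K A (c (Function.update (Function.update α0.1 (hz j) x) (ho j) x', β)) *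
        ((S (hz j) x * X (2 * n) ^ (β 0).val) * (S (ho j) x' * X (2 * n + 1) ^ (β 1).val)) = 0 := by
    have m0 : (hz j).val % 2 = 0 := by show (2 * j.val) % 2 = 0; omega
    have m1 : (ho j).val % 2 = 1 := by show (2 * j.val + 1) % 2 = 1; omega
    have t0 : ∀ (x : Ax n e (hz j)) (β : Fin 2 → Fin n), S (hz j) x * X (2 * n) ^ (β 0).val =
        ∑ g ∈ Finset.range (3 * n), algebraMap K A (sg (G (2 * j.val)) (lam (2 * j.val))
          (μ (hz j)) (i (hz j)) g x.1.val x.2.val (β 0).val) * X (2 * n) ^ g := by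
      intro x β
      have := sg_sum (hG (hz j).val (hz j).isLt) (lam (hz j).val) (μ (hz j)) (i (hz j))
        x.1.val x.2.val (β 0).val (Nat.lt_succ_iff.mp x.2.isLt) (β 0).isLt A (X (2 * n))
      rw [← show (hz j).val = 2 * j.val from rfl, ← this]
      show (∑ g ∈ Finset.range (2 * n + 1),
        algebraMap K A (sh (G (hz j).val) (lam (hz j).val) (μ (hz j)) (i (hz j)) g x.1.val
          x.2.val) * X (2 * n + (hz j).val % 2) ^ g) * X (2 * n) ^ (β 0).val = _
      simp only [m0, Nat.add_zero]
    have t1 : ∀ (x' : Ax n e (ho j)) (β : Fin 2 → Fin n),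
        S (ho j) x' * X (2 * n + 1) ^ (β 1).val =
        ∑ g ∈ Finset.range (3 * n), algebraMap K A (sg (G (2 * j.val + 1)) (lam (2 * j.val + 1))
          (μ (ho j)) (i (ho j)) g x'.1.val x'.2.val (β 1).val) * X (2 * n + 1) ^ g := by
      intro x' β
      have := sg_sum (hG (ho j).val (ho j).isLt) (lam (ho j).val) (μ (ho j)) (i (ho j))
        x'.1.val x'.2.val (β 1).val (Nat.lt_succ_iff.mp x'.2.isLt) (β 1).isLt A (X (2 * n + 1))
      rw [← show (ho j).val = 2 * j.val + 1 from rfl, ← this]
      show (∑ g ∈ Finset.range (2 * n + 1),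
        algebraMap K A (sh (G (ho j).val) (lam (ho j).val) (μ (ho j)) (i (ho j)) g x'.1.val
          x'.2.val) * X (2 * n + (ho j).val % 2) ^ g) * X (2 * n + 1) ^ (β 1).val = _
      rw [m1]
    have hx : ∀ (x : Ax n e (hz j)) (x' : Ax n e (ho j)) (β : Fin 2 → Fin n),
        algebraMap K A (c (Function.update (Function.update α0.1 (hz j) x) (ho j) x', β)) *
        ((S (hz j) x * X (2 * n) ^ (β 0).val) * (S (ho j) x' * X (2 * n + 1) ^ (β 1).val)) =
        ∑ g ∈ Finset.range (3 * n), ∑ g' ∈ Finset.range (3 * n),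
          algebraMap K A (c (Function.update (Function.update α0.1 (hz j) x) (ho j) x', β) *
            (sg (G (2 * j.val)) (lam (2 * j.val)) (μ (hz j)) (i (hz j)) g x.1.val x.2.val
              (β 0).val *
            sg (G (2 * j.val + 1)) (lam (2 * j.val + 1)) (μ (ho j)) (i (ho j)) g' x'.1.val
              x'.2.val (β 1).val)) * (X (2 * n) ^ g * X (2 * n + 1) ^ g') := by
      intro x x' β
      rw [t0, t1, Finset.sum_mul_sum, Finset.mul_sum]
      apply Finset.sum_congr rfl
      intro g _
      rw [Finset.mul_sum]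
      apply Finset.sum_congr rfl
      intro g' _
      rw [map_mul, map_mul]
      ring
    simp only [hx]
    have w1 : ∀ (x : Ax n e (hz j)) (x' : Ax n e (ho j)), _ := fun x x' =>
      swap3 (Finset.univ : Finset (Fin 2 → Fin n)) (Finset.range (3 * n)) (Finset.range (3 * n))
        (fun β g g' =>
          algebraMap K A (c (Function.update (Function.update α0.1 (hz j) x) (ho j) x', β) *
            (sg (G (2 * j.val)) (lam (2 * j.val)) (μ (hz j)) (i (hz j)) g x.1.val x.2.val
              (β 0).val *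
            sg (G (2 * j.val + 1)) (lam (2 * j.val + 1)) (μ (ho j)) (i (ho j)) g' x'.1.val
              x'.2.val (β 1).val)) * (X (2 * n) ^ g * X (2 * n + 1) ^ g'))
    rw [Finset.sum_congr rfl (fun x _ => Finset.sum_congr rfl (fun x' _ => w1 x x'))]
    rw [Finset.sum_congr rfl (fun x _ => swap3 (Finset.univ : Finset (Ax n e (ho j)))
      (Finset.range (3 * n)) (Finset.range (3 * n)) _)]
    rw [swap3 (Finset.univ : Finset (Ax n e (hz j))) (Finset.range (3 * n))
      (Finset.range (3 * n)) _]
    apply Finset.sum_eq_zero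
    intro g hg
    apply Finset.sum_eq_zero
    intro g' hg'
    have hcc := hc j α0.1 (lam (2 * j.val)) (lam (2 * j.val + 1)) (μ (hz j)) (μ (ho j))
      (i (hz j)) (i (ho j)) hF g (Finset.mem_range.mp hg) g' (Finset.mem_range.mp hg')
    have : ∀ (z : A), ∑ x : Ax n e (hz j), ∑ x' : Ax n e (ho j), ∑ β : Fin 2 → Fin n,
        algebraMap K A (c (Function.update (Function.update α0.1 (hz j) x) (ho j) x', β) *
            (sg (G (2 * j.val)) (lam (2 * j.val)) (μ (hz j)) (i (hz j)) g x.1.val x.2.val
              (β 0).val *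
            sg (G (2 * j.val + 1)) (lam (2 * j.val + 1)) (μ (ho j)) (i (ho j)) g' x'.1.val
              x'.2.val (β 1).val)) * z = algebraMap K A 0 * z := by
      intro z
      rw [← hcc]
      simp only [map_sum, Finset.sum_mul]
    rw [this, map_zero, zero_mul]
  have hR : ∀ (x : Ax n e (hz j)) (x' : Ax n e (ho j)) (β : Fin 2 → Fin n),
      algebraMap K A (c (Function.update (Function.update α0.1 (hz j) x) (ho j) x', β)) *
        (S (hz j) x * S (ho j) x' *
          ∏ h ∈ (Finset.univ.erase (hz j)).erase (ho j), S h (α0.1 h)) *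
        (X (2 * n) ^ (β 0).val * X (2 * n + 1) ^ (β 1).val) =
      (algebraMap K A (c (Function.update (Function.update α0.1 (hz j) x) (ho j) x', β)) *
        ((S (hz j) x * X (2 * n) ^ (β 0).val) * (S (ho j) x' * X (2 * n + 1) ^ (β 1).val))) *
        ∏ h ∈ (Finset.univ.erase (hz j)).erase (ho j), S h (α0.1 h) := by
    intro x x' β
    ring
  simp only [hR]
  rw [swap3 (Finset.univ : Finset (Fin 2 → Fin n)) (Finset.univ : Finset (Ax n e (hz j)))
    (Finset.univ : Finset (Ax n e (ho j))) _]
  simp only [← Finset.sum_mul]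
  rw [hI, zero_mul]

end

end Pool.Agent.Helper78.SGC1
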